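import Mathlib
import Pool.Agent.Helper12.PF.Defs

/-!
# Ritt type theorem on an irreducible hypersurface (module RT)
-/

open MvPolynomial

namespace Helper89.A61

variable {n : ℕ}

/-- directional derivative of a polynomial -/
noncomputable def dd (w : Fin n → ℂ) (q : MvPolynomial (Fin n) ℂ) : MvPolynomial (Fin n) ℂ :=
  ∑ j, C (w j) * pderiv j q

lemma dd_add (w : Fin n → ℂ) (q r : MvPolynomial (Fin n) ℂ) :
    dd w (q + r) = dd w q + dd w r := by
  simp [dd, mul_add, Finset.sum_add_distrib]

lemma dd_mul (w : Fin n → ℂ) (q r : MvPolynomial (Fin n) ℂ) :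
    dd w (q * r) = dd w q * r + q * dd w r := by
  simp only [dd, pderiv_mul, Finset.sum_mul, Finset.mul_sum, ← Finset.sum_add_distrib]
  exact Finset.sum_congr rfl fun j _ => by ring

lemma dd_C (w : Fin n → ℂ) (a : ℂ) : dd w (C a : MvPolynomial (Fin n) ℂ) = 0 := by
  simp [dd]

lemma dd_X (w : Fin n → ℂ) (i : Fin n) : dd w (X i : MvPolynomial (Fin n) ℂ) = C (w i) := by
  classical
  simp [dd, pderiv_X, Pi.single_apply]

/-- the differential of a polynomial function -/
noncomputable def dF (q : MvPolynomial (Fin n) ℂ) (z : Fin n → ℂ) : (Fin n → ℂ) →L[ℂ] ℂ :=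
  ∑ j, (eval z (pderiv j q)) • ContinuousLinearMap.proj (R := ℂ) (φ := fun _ : Fin n => ℂ) j

lemma dF_apply (q : MvPolynomial (Fin n) ℂ) (z w : Fin n → ℂ) :
    dF q z w = eval z (dd w q) := by
  simp [dF, dd, mul_comm]

lemma hasStrict (q : MvPolynomial (Fin n) ℂ) (z : Fin n → ℂ) :
    HasStrictFDerivAt (fun y => eval y q) (dF q z) z := by
  induction q using MvPolynomial.induction_on with
  | C a =>
    have : dF (C a : MvPolynomial (Fin n) ℂ) z = 0 := by
      ext w; simp [dF_apply, dd_C]
    rw [this]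
    simpa using hasStrictFDerivAt_const a z
  | add p q hp hq =>
    have : dF (p + q) z = dF p z + dF q z := by
      ext w; simp [dF_apply, dd_add]
    rw [this]
    have e : (fun y : Fin n → ℂ => eval y (p + q)) =
        (fun y => eval y p) + fun y => eval y q := by
      funext y; simp
    rw [e]
    exact hp.add hq
  | mul_X p i hp =>
    have hx : HasStrictFDerivAt (fun y : Fin n → ℂ => y i)
        (ContinuousLinearMap.proj (R := ℂ) (φ := fun _ : Fin n => ℂ) i) z :=
      (ContinuousLinearMap.proj (R := ℂ) (φ := fun _ : Fin n => ℂ) i).hasStrictFDerivAt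
    have : dF (p * X i) z = eval z p • ContinuousLinearMap.proj (R := ℂ) (φ := fun _ : Fin n => ℂ) i
        + z i • dF p z := by
      ext w; simp [dF_apply, dd_mul, dd_X]; ring
    rw [this]
    have e : (fun y : Fin n → ℂ => eval y (p * X i)) =
        (fun y => eval y p) * fun y => y i := by
      funext y; simp
    rw [e]
    exact hp.mul hx

/-- polynomials vanishing on an irreducible hypersurface are multiples of its equation -/
lemma dvd_of_vanish {p q : MvPolynomial (Fin n) ℂ} (hp : Prime p)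
    (h : ∀ z, eval z p = 0 → eval z q = 0) : p ∣ q := by
  have hP : (Ideal.span {p}).IsPrime := (Ideal.span_singleton_prime hp.ne_zero).2 hp
  have h1 : q ∈ vanishingIdeal ℂ (zeroLocus ℂ (Ideal.span {p})) := by
    rw [mem_vanishingIdeal_iff]
    intro z hz
    rw [mem_zeroLocus_iff] at hz
    have := h z (by simpa using hz p (Ideal.mem_span_singleton_self p))
    simpa using this
  rw [IsPrime.vanishingIdeal_zeroLocus] at h1
  exact Ideal.mem_span_singleton.1 h1

/-- a function vanishing on `{f = 0}` has vanishing tangential derivatives -/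
lemma tang {E : Type*} [NormedAddCommGroup E] [NormedSpace ℂ E] [CompleteSpace E]
    {f h : E → ℂ} {f' h' : E →L[ℂ] ℂ} {a : E} (hf : HasStrictFDerivAt f f' a)
    (hh : HasStrictFDerivAt h h' a) (hfa : f a = 0) (hv : ∀ z, f z = 0 → h z = 0)
    {w : E} (hw : f' w = 0) (hf' : f' ≠ 0) : h' w = 0 := by
  have key : ∀ w : E, f' w = 0 → (h' w).re = 0 := by
    intro w hw
    let _ : NormedSpace ℝ E := NormedSpace.restrictScalars ℝ ℂ E
    have hfR : HasStrictFDerivAt f (f'.restrictScalars ℝ) a := hf.restrictScalars ℝ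
    have hhR : HasStrictFDerivAt h (h'.restrictScalars ℝ) a := hh.restrictScalars ℝ
    have hre : HasStrictFDerivAt (fun z => (h z).re)
        (Complex.reCLM.comp (h'.restrictScalars ℝ)) a :=
      Complex.reCLM.hasStrictFDerivAt.comp a hhR
    have hex : IsLocalExtrOn (fun z => (h z).re) {x | f x = f a} a := by
      left
      rw [IsMinFilter]
      filter_upwards [self_mem_nhdsWithin] with x hx
      have hx' : f x = 0 := by rw [← hfa]; exact hx
      simp [hv x hx', hv a hfa]
    obtain ⟨Λ, Λ₀, hne, hΛ⟩ := hex.exists_linear_map_of_hasStrictFDerivAt hfR hre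
    have hΛ0 : Λ₀ ≠ 0 := by
      intro h0
      apply hne
      have : Λ = 0 := by
        obtain ⟨e, he⟩ : ∃ e, f' e ≠ 0 := by
          by_contra hcon
          push Not at hcon
          exact hf' (by ext x; simpa using hcon x)
        ext c
        have := hΛ ((c / f' e) • e)
        rw [h0] at this
        simpa [he] using this
      rw [this, h0]; rfl
    have := hΛ w
    simp only [ContinuousLinearMap.coe_restrictScalars', hw, map_zero, zero_add,
      ContinuousLinearMap.comp_apply, Complex.reCLM_apply, smul_eq_mul, mul_eq_zero] at this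
    exact this.resolve_left hΛ0
  apply Complex.ext
  · simpa using key w hw
  · have := key (Complex.I • w) (by simp [hw])
    simpa using this

/-- exponential-polynomial function -/
noncomputable def ef (S : Finset (Fin n → ℂ)) (M : (Fin n → ℂ) → MvPolynomial (Fin n) ℂ)
    (z : Fin n → ℂ) : ℂ := ∑ v ∈ S, eval z (M v) * Complex.exp (∑ j, v j * z j)

/-- tangential derivation -/
noncomputable def tt (p : MvPolynomial (Fin n) ℂ) (w u : Fin n → ℂ)
    (q : MvPolynomial (Fin n) ℂ) : MvPolynomial (Fin n) ℂ := dd w p * dd u q - dd u p * dd w q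

/-- tangential derivation of a linear form -/
noncomputable def tl (p : MvPolynomial (Fin n) ℂ) (w u v : Fin n → ℂ) :
    MvPolynomial (Fin n) ℂ :=
  dd w p * C (∑ j, v j * u j) - dd u p * C (∑ j, v j * w j)

lemma ef_deriv (S : Finset (Fin n → ℂ)) (M : (Fin n → ℂ) → MvPolynomial (Fin n) ℂ)
    (z : Fin n → ℂ) : ∃ L : (Fin n → ℂ) →L[ℂ] ℂ, HasStrictFDerivAt (ef S M) L z ∧
      ∀ w, L w = ∑ v ∈ S, (eval z (dd w (M v)) + eval z (M v) * ∑ j, v j * w j) *
        Complex.exp (∑ j, v j * z j) := by
  have h1 : ∀ v ∈ S, ∃ L : (Fin n → ℂ) →L[ℂ] ℂ,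
      HasStrictFDerivAt (fun z => eval z (M v) * Complex.exp (∑ j, v j * z j)) L z ∧
      ∀ w, L w = (eval z (dd w (M v)) + eval z (M v) * ∑ j, v j * w j) *
        Complex.exp (∑ j, v j * z j) := by
    intro v _
    let lv : (Fin n → ℂ) →L[ℂ] ℂ :=
      ∑ j, v j • ContinuousLinearMap.proj (R := ℂ) (φ := fun _ : Fin n => ℂ) j
    have hlv : ∀ z, lv z = ∑ j, v j * z j := fun z => by simp [lv]
    have e1 : HasStrictFDerivAt (fun z : Fin n → ℂ => Complex.exp (∑ j, v j * z j))
        (Complex.exp (∑ j, v j * z j) • lv) z := by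
      have := (lv.hasStrictFDerivAt (x := z)).cexp
      simpa [hlv] using this
    refine ⟨_, (hasStrict (M v) z).mul e1, fun w => ?_⟩
    simp [dF_apply, hlv]; ring
  choose! L hL hL2 using h1
  refine ⟨∑ v ∈ S, L v, ?_, fun w => ?_⟩
  · exact HasStrictFDerivAt.fun_sum fun v hv => hL v hv
  · rw [sum_apply]
    exact Finset.sum_congr rfl fun v hv => hL2 v hv w

/-- the tangential derivative of a relation -/
lemma rel_tang {p : MvPolynomial (Fin n) ℂ} {S : Finset (Fin n → ℂ)}
    {M : (Fin n → ℂ) → MvPolynomial (Fin n) ℂ} (h : ∀ z, eval z p = 0 → ef S M z = 0)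
    (w u : Fin n → ℂ) :
    ∀ z, eval z p = 0 → ef S (fun v => tt p w u (M v) + M v * tl p w u v) z = 0 := by
  intro z hz
  obtain ⟨L, hL, hL2⟩ := ef_deriv S M z
  have hval : ef S (fun v => tt p w u (M v) + M v * tl p w u v) z
      = L ((dF p z w) • u - (dF p z u) • w) := by
    rw [map_sub, map_smul, map_smul, hL2, hL2, ef, smul_eq_mul, smul_eq_mul, Finset.mul_sum,
      Finset.mul_sum, ← Finset.sum_sub_distrib]
    refine Finset.sum_congr rfl fun v _ => ?_
    simp only [tt, tl, dF_apply, map_add, map_sub, map_mul, eval_C]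
    ring
  rw [hval]
  by_cases h0 : dF p z = 0
  · simp [h0]
  · refine tang (hasStrict p z) hL hz h ?_ h0
    simp [mul_comm]

/-- polynomial substitution along a linear isomorphism -/
noncomputable def sub (Φ : (Fin n → ℂ) ≃ₗ[ℂ] (Fin n → ℂ)) :
    MvPolynomial (Fin n) ℂ →ₐ[ℂ] MvPolynomial (Fin n) ℂ :=
  aeval fun i => ∑ k, C (Φ (Pi.single k 1) i) * X k

lemma eval_sub (Φ : (Fin n → ℂ) ≃ₗ[ℂ] (Fin n → ℂ)) (z : Fin n → ℂ)
    (q : MvPolynomial (Fin n) ℂ) : eval z (sub Φ q) = eval (Φ z) q := by
  have hz : ∀ i, Φ z i = ∑ k, Φ (Pi.single k 1) i * z k := by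
    intro i
    have h1 : z = ∑ k, z k • (Pi.single k 1 : Fin n → ℂ) := by
      funext j; simp [Finset.sum_apply, Pi.single_apply]
    conv_lhs => rw [h1]
    rw [map_sum, Finset.sum_apply]
    refine Finset.sum_congr rfl fun k _ => ?_
    rw [map_smul]
    simp [mul_comm]
  induction q using MvPolynomial.induction_on with
  | C a => simp [sub]
  | add p q hp hq => simp [hp, hq]
  | mul_X p i hp =>
    rw [map_mul, map_mul, hp, map_mul]
    simp [sub, hz]

/-- substitution as an algebra isomorphism -/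
noncomputable def subE (Φ : (Fin n → ℂ) ≃ₗ[ℂ] (Fin n → ℂ)) :
    MvPolynomial (Fin n) ℂ ≃ₐ[ℂ] MvPolynomial (Fin n) ℂ :=
  AlgEquiv.ofAlgHom (sub Φ) (sub Φ.symm)
    (by
      apply AlgHom.ext
      intro q
      apply MvPolynomial.funext
      intro z
      simp [eval_sub])
    (by
      apply AlgHom.ext
      intro q
      apply MvPolynomial.funext
      intro z
      simp [eval_sub])

lemma subE_apply (Φ : (Fin n → ℂ) ≃ₗ[ℂ] (Fin n → ℂ)) (q : MvPolynomial (Fin n) ℂ) :
    subE Φ q = sub Φ q := rfl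

lemma pderiv_sub (Φ : (Fin n → ℂ) ≃ₗ[ℂ] (Fin n → ℂ)) (k : Fin n)
    (q : MvPolynomial (Fin n) ℂ) :
    pderiv k (subE Φ q) = subE Φ (dd (Φ (Pi.single k 1)) q) := by
  classical
  simp only [subE_apply]
  induction q using MvPolynomial.induction_on with
  | C a => simp [dd_C, sub]
  | add p q hp hq => simp [hp, hq, dd_add]
  | mul_X p i hp =>
    simp only [map_mul, pderiv_mul, hp, dd_mul, dd_X, map_add]
    congr 1
    simp [sub, pderiv_X, Pi.single_apply]

/-- two independent vectors as images of two coordinate vectors -/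
lemma exists_equiv {n : ℕ} {w u : Fin (n + 1) → ℂ} (h : LinearIndependent ℂ ![w, u]) :
    ∃ (Φ : (Fin (n+1) → ℂ) ≃ₗ[ℂ] (Fin (n+1) → ℂ)) (j : Fin n),
      Φ (Pi.single 0 1) = w ∧ Φ (Pi.single j.succ 1) = u := by
  classical
  have hwu : w ≠ u := by
    intro hwu
    have := h.injective.ne (show (0 : Fin 2) ≠ 1 by decide)
    simp at this
    exact this hwu
  have hs : LinearIndepOn ℂ id ({w, u} : Set (Fin (n+1) → ℂ)) := by
    have := h.linearIndepOn_id
    simpa [Matrix.range_cons, Matrix.range_empty, Set.pair_comm] using this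
  let b := Module.Basis.extend hs
  have hw : w ∈ hs.extend (Set.subset_univ _) := hs.subset_extend _ (by simp)
  have hu : u ∈ hs.extend (Set.subset_univ _) := hs.subset_extend _ (by simp)
  let e : (hs.extend (Set.subset_univ _)) ≃ Fin (n+1) :=
    b.indexEquiv (Pi.basisFun ℂ (Fin (n+1)))
  let e' := e.trans (Equiv.swap (e ⟨w, hw⟩) 0)
  have e0 : e' ⟨w, hw⟩ = 0 := by simp [e']
  have e1 : e' ⟨u, hu⟩ ≠ 0 := by
    rw [← e0]
    intro h1
    have := e'.injective h1
    simp at this
    exact hwu this.symm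
  obtain ⟨j, hj⟩ := Fin.exists_succ_eq.2 e1
  let b' := b.reindex e'
  refine ⟨b'.equivFun.symm, j, ?_, ?_⟩
  · have : b'.equivFun.symm (Pi.single 0 1) = b' 0 := by
      rw [Module.Basis.equivFun_symm_apply]
      simp [Pi.single_apply]
    rw [this, ← e0]
    simp [b', b]
  · have : b'.equivFun.symm (Pi.single j.succ 1) = b' j.succ := by
      rw [Module.Basis.equivFun_symm_apply]
      simp [Pi.single_apply]
    rw [this, hj]
    simp [b', b]

/-- the algebraic core in invariant form -/
lemma AC_inv (hAC : Helper12.PF.ST_AC) {n : ℕ} {p M0 M1 : MvPolynomial (Fin n) ℂ}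
    (hp : Prime p) (h0 : ¬ p ∣ M0) (h1 : ¬ p ∣ M1) {w u : Fin n → ℂ}
    (hwu : LinearIndependent ℂ ![w, u]) (hw : dd w p ≠ 0) :
    ¬ p ∣ (M0 * tt p w u M1 - M1 * tt p w u M0 + M0 * M1 * dd w p) := by
  obtain _ | n := n
  · exact absurd (Subsingleton.elim _ _) (hwu.ne_zero (0 : Fin 2))
  obtain ⟨Φ, j, hΦ0, hΦj⟩ := exists_equiv hwu
  have key := hAC n (subE Φ p) (subE Φ M0) (subE Φ M1) j 1
    ((MulEquiv.prime_iff (subE Φ)).2 hp)
    (by rw [pderiv_sub, hΦ0]; simpa using hw)
    (by rw [map_dvd_iff]; exact h0) (by rw [map_dvd_iff]; exact h1) one_ne_zero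
  rw [← map_dvd_iff (subE Φ)]
  convert key using 1
  simp only [Helper12.PF.tau, pderiv_sub, hΦ0, hΦj, tt, map_add, map_sub, map_mul, map_one,
    one_mul]

theorem ritt (hAC : Helper12.PF.ST_AC) : Helper12.PF.ST_RT := by
  intro n p V N hp hrel hex
  classical
  -- relations
  let Rel : Finset (Fin n → ℂ) → Prop := fun S => S.Nonempty ∧ S ⊆ V ∧
    ∃ M : (Fin n → ℂ) → MvPolynomial (Fin n) ℂ, (∀ v ∈ S, ¬ p ∣ M v) ∧
      ∀ z, eval z p = 0 → ef S M z = 0
  have drop : ∀ (S : Finset (Fin n → ℂ)) (M : (Fin n → ℂ) → MvPolynomial (Fin n) ℂ), S ⊆ V →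
      (∀ z, eval z p = 0 → ef S M z = 0) → (∃ v ∈ S, ¬ p ∣ M v) →
      ∃ T, T.card ≤ S.card ∧ Rel T := by
    intro S M hS hM ⟨v, hv, hpv⟩
    refine ⟨S.filter (fun v => ¬ p ∣ M v), Finset.card_filter_le _ _,
      ⟨v, Finset.mem_filter.2 ⟨hv, hpv⟩⟩, (Finset.filter_subset _ _).trans hS, M,
      fun v hv => (Finset.mem_filter.1 hv).2, fun z hz => ?_⟩
    rw [← hM z hz, ef, ef]
    refine Finset.sum_subset (Finset.filter_subset _ _) fun v hv hv' => ?_
    have : p ∣ M v := by
      by_contra hcon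
      exact hv' (Finset.mem_filter.2 ⟨hv, hcon⟩)
    obtain ⟨r, hr⟩ := this
    simp [hr, hz]
  have hex1 : ∃ k, ∃ S, Rel S ∧ S.card = k := by
    obtain ⟨T, -, hT⟩ := drop V N Finset.Subset.rfl hrel hex
    exact ⟨_, T, hT, rfl⟩
  obtain ⟨S, ⟨hSne, hSV, M, hM, hMrel⟩, hScard⟩ := Nat.find_spec hex1
  have hmin : ∀ T, Rel T → S.card ≤ T.card := by
    intro T hT
    rw [hScard]
    exact Nat.find_min' hex1 ⟨T, hT, rfl⟩
  -- at least two elements
  obtain ⟨v0, hv0⟩ := hSne
  have h2 : ∃ v1 ∈ S, v1 ≠ v0 := by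
    by_contra hcon
    push Not at hcon
    have hS1 : S = {v0} := by
      ext v; constructor
      · intro hv; simp [hcon v hv]
      · intro hv; rw [Finset.mem_singleton.1 hv]; exact hv0
    refine hM v0 hv0 (dvd_of_vanish hp fun z hz => ?_)
    have := hMrel z hz
    rw [hS1, ef, Finset.sum_singleton, mul_eq_zero] at this
    exact this.resolve_right (Complex.exp_ne_zero _)
  obtain ⟨v1, hv1, hne⟩ := h2
  -- divisibility from minimality
  have hdvd : ∀ w u, p ∣ M v0 * (tt p w u (M v1) + M v1 * tl p w u v1) -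
      (tt p w u (M v0) + M v0 * tl p w u v0) * M v1 := by
    intro w u
    by_contra hcon
    let K : (Fin n → ℂ) → MvPolynomial (Fin n) ℂ := fun v =>
      M v0 * (tt p w u (M v) + M v * tl p w u v) -
      (tt p w u (M v0) + M v0 * tl p w u v0) * M v
    have hK : ∀ z, eval z p = 0 → ef (S.erase v0) K z = 0 := by
      intro z hz
      have h1 := rel_tang hMrel w u z hz
      have h0 := hMrel z hz
      have hfull : ef S K z = 0 := by
        have : ef S K z = eval z (M v0) *
            ef S (fun v => tt p w u (M v) + M v * tl p w u v) z -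
            eval z (tt p w u (M v0) + M v0 * tl p w u v0) * ef S M z := by
          simp only [ef, Finset.mul_sum, ← Finset.sum_sub_distrib]
          refine Finset.sum_congr rfl fun v _ => ?_
          simp only [K, map_sub, map_mul]
          ring
        rw [this, h1, h0]; simp
      have hsplit := Finset.add_sum_erase S
        (fun v => eval z (K v) * Complex.exp (∑ j, v j * z j)) hv0
      have hK0 : K v0 = 0 := by simp only [K]; ring
      have : ef S K z = ef (S.erase v0) K z := by
        rw [ef, ← hsplit, hK0]; simp [ef]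
      rw [← this]; exact hfull
    obtain ⟨T, hTc, hT⟩ := drop (S.erase v0) K ((Finset.erase_subset _ _).trans hSV) hK
      ⟨v1, Finset.mem_erase.2 ⟨hne, hv1⟩, hcon⟩
    have := hmin T hT
    have := Finset.card_erase_lt_of_mem hv0
    omega
  refine ⟨v1, hSV hv1, v0, hSV hv0, hne, ?_⟩
  have hl : v1 - v0 ≠ 0 := sub_ne_zero.2 hne
  -- vanishing of the directional derivatives
  have hker : ∀ w : Fin n → ℂ, ∑ j, (v1 - v0) j * w j = 0 → dd w p = 0 := by
    intro w hw
    by_contra hdw
    obtain ⟨i, hi⟩ := Function.ne_iff.1 hl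
    obtain ⟨u, hu⟩ : ∃ u : Fin n → ℂ, ∑ j, (v1 - v0) j * u j = 1 :=
      ⟨Pi.single i ((v1 - v0) i)⁻¹, by
        simp only [Pi.single_apply, mul_ite, mul_zero, Finset.sum_ite_eq', Finset.mem_univ,
          if_true]
        exact mul_inv_cancel₀ hi⟩
    have hlin : LinearIndependent ℂ ![w, u] := by
      rw [LinearIndependent.pair_iff]
      intro s t hst
      have h1 : ∑ j, (v1 - v0) j * (s • w + t • u) j = 0 := by rw [hst]; simp
      have h2 : ∑ j, (v1 - v0) j * (s • w + t • u) j =
          s * ∑ j, (v1 - v0) j * w j + t * ∑ j, (v1 - v0) j * u j := by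
        rw [Finset.mul_sum, Finset.mul_sum, ← Finset.sum_add_distrib]
        refine Finset.sum_congr rfl fun j _ => ?_
        simp only [Pi.add_apply, Pi.smul_apply, smul_eq_mul]; ring
      rw [h2, hw, hu] at h1
      have ht : t = 0 := by simpa using h1
      refine ⟨?_, ht⟩
      rw [ht, zero_smul, add_zero] at hst
      rcases smul_eq_zero.1 hst with h | h
      · exact h
      · exfalso
        apply hdw
        rw [h]; simp [dd]
    refine AC_inv hAC hp (hM v0 hv0) (hM v1 hv1) hlin hdw ?_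
    have e1 : dd w p = tl p w u v1 - tl p w u v0 := by
      have a1 : (∑ j, v1 j * u j) - (∑ j, v0 j * u j) = 1 := by
        rw [← Finset.sum_sub_distrib, ← hu]
        exact Finset.sum_congr rfl fun j _ => by rw [Pi.sub_apply]; ring
      have a2 : (∑ j, v1 j * w j) - (∑ j, v0 j * w j) = 0 := by
        rw [← Finset.sum_sub_distrib, ← hw]
        exact Finset.sum_congr rfl fun j _ => by rw [Pi.sub_apply]; ring
      have : tl p w u v1 - tl p w u v0 = dd w p * C ((∑ j, v1 j * u j) - (∑ j, v0 j * u j)) -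
          dd u p * C ((∑ j, v1 j * w j) - (∑ j, v0 j * w j)) := by
        simp only [tl, C_sub]; ring
      rw [this, a1, a2]; simp
    have e2 : M v0 * tt p w u (M v1) - M v1 * tt p w u (M v0) + M v0 * M v1 * dd w p =
        M v0 * (tt p w u (M v1) + M v1 * tl p w u v1) -
        (tt p w u (M v0) + M v0 * tl p w u v0) * M v1 := by
      rw [e1]; ring
    rw [e2]
    exact hdvd w u
  intro z w hw
  have hd := hker w hw
  let g : ℂ → ℂ := fun t => eval (z + t • w) p
  have hg : ∀ t, HasDerivAt g 0 t := by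
    intro t
    have h1 : HasDerivAt (fun t : ℂ => z + t • w) w t := by
      simpa using ((hasDerivAt_id t).smul_const w).const_add z
    have h2 := (hasStrict p (z + t • w)).hasFDerivAt.comp_hasDerivAt t h1
    rw [dF_apply, hd, map_zero] at h2
    exact h2
  have hc : g 1 = g 0 :=
    is_const_of_deriv_eq_zero (fun t => (hg t).differentiableAt) (fun t => (hg t).deriv) 1 0
  simpa [g] using hc

end Helper89.A61
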